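import Mathlib

/-!
Ping-pong for the windmill: adding one rotation for every orbit keeps the family free.
-/

namespace Pool.Agent.H88.WPD

/-- No nontrivial relation among the elements of `O`. -/
def FreeOn {G : Type*} [Group G] (O : Set G) : Prop :=
  ∀ x : FreeGroup G, x ∈ Subgroup.closure (FreeGroup.of '' O) → FreeGroup.lift id x = 1 → x = 1

/-- The image of the closure. -/
theorem lift_mem {G : Type*} [Group G] (O : Set G) (x : FreeGroup G)
    (hx : x ∈ Subgroup.closure (FreeGroup.of '' O)) : FreeGroup.lift id x ∈ Subgroup.closure O := by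
  have h1 : (Subgroup.closure (FreeGroup.of '' O)).map (FreeGroup.lift id) =
      Subgroup.closure O := by
    rw [MonoidHom.map_closure, ← Set.image_comp]
    congr 1
    ext y
    simp
  rw [← h1]
  exact ⟨x, hx, rfl⟩

theorem lift_surj {G : Type*} [Group G] (O : Set G) (g : G) (hg : g ∈ Subgroup.closure O) :
    ∃ x ∈ Subgroup.closure (FreeGroup.of '' O), FreeGroup.lift id x = g := by
  have h1 : (Subgroup.closure (FreeGroup.of '' O)).map (FreeGroup.lift id) =
      Subgroup.closure O := by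
    rw [MonoidHom.map_closure, ← Set.image_comp]
    congr 1
    ext y
    simp
  rw [← h1] at hg
  obtain ⟨x, hx, h⟩ := hg
  exact ⟨x, hx, h⟩

/-- The closure of a free family is a free group. -/
theorem free_closure {G : Type*} [Group G] (O : Set G) (h : FreeOn O) :
    IsFreeGroup (Subgroup.closure O) := by
  let K : Subgroup (FreeGroup G) := Subgroup.closure (FreeGroup.of '' O)
  let φ : K →* Subgroup.closure O :=
    ((FreeGroup.lift id : FreeGroup G →* G).comp K.subtype).codRestrict (Subgroup.closure O)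
      (fun x => lift_mem O x.1 x.2)
  have hφ : Function.Bijective φ := by
    constructor
    · rw [injective_iff_map_eq_one]
      rintro ⟨x, hx⟩ h1
      have h2 : FreeGroup.lift id x = 1 := congrArg Subtype.val h1
      exact Subtype.ext (h x hx h2)
    · rintro ⟨g, hg⟩
      obtain ⟨x, hx, h1⟩ := lift_surj O g hg
      exact ⟨⟨x, hx⟩, Subtype.ext h1⟩
  exact IsFreeGroup.ofMulEquiv (MulEquiv.ofBijective φ hφ)

theorem torsion_free {G : Type*} [Group G] (O : Set G) (h : FreeOn O) (g : G)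
    (hg : g ∈ Subgroup.closure O) (g1 : g ≠ 1) (j : ℤ) (hj : j ≠ 0) : g ^ j ≠ 1 := by
  intro h1
  obtain ⟨x, hx, rfl⟩ := lift_surj O g hg
  have h2 : x ^ j = 1 := h _ (Subgroup.zpow_mem _ hx j) (by rw [map_zpow]; exact h1)
  apply g1
  have h3 : x = 1 := by
    by_contra hne
    have h4 := zpow_left_injective (G := FreeGroup G) hj
    exact hne (h4 (by simpa using h2))
  rw [h3, map_one]

/-- The factors. -/
def Kf {G : Type*} [Group G] (O S : Set G) : Option S → Subgroup (FreeGroup G)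
  | none => Subgroup.closure (FreeGroup.of '' O)
  | some s => Subgroup.closure {FreeGroup.of s.1}

/-- The maps of the factors. -/
def ff {G : Type*} [Group G] (O S : Set G) (i : Option S) : Kf O S i →* G :=
  (FreeGroup.lift id : FreeGroup G →* G).comp (Kf O S i).subtype

theorem ff_apply {G : Type*} [Group G] (O S : Set G) (i : Option S) (h : Kf O S i) :
    ff O S i h = FreeGroup.lift id h.1 := rfl

theorem mem_Kf_none {G : Type*} [Group G] (O S : Set G) (g : G) (hg : g ∈ O) :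
    FreeGroup.of g ∈ Kf O S none := by
  show FreeGroup.of g ∈ Subgroup.closure (FreeGroup.of '' O)
  exact Subgroup.subset_closure (Set.mem_image_of_mem _ hg)

theorem mem_Kf_some {G : Type*} [Group G] (O S : Set G) (g : G) (hg : g ∈ S) :
    FreeGroup.of g ∈ Kf O S (some ⟨g, hg⟩) := by
  show FreeGroup.of g ∈ Subgroup.closure {FreeGroup.of g}
  exact Subgroup.subset_closure (Set.mem_singleton _)

open Classical in
/-- The section. -/
noncomputable def sec {G : Type*} [Group G] (O S : Set G) (g : G) :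
    Monoid.CoprodI (fun i => Kf O S i) :=
  if hg : g ∈ O then Monoid.CoprodI.of (M := fun i => Kf O S i) (i := none)
      ⟨FreeGroup.of g, mem_Kf_none O S g hg⟩
    else if hg' : g ∈ S then Monoid.CoprodI.of (M := fun i => Kf O S i) (i := some ⟨g, hg'⟩)
      ⟨FreeGroup.of g, mem_Kf_some O S g hg'⟩
    else 1

/-- From the free product to the free group. -/
def ph {G : Type*} [Group G] (O S : Set G) :
    Monoid.CoprodI (fun i => Kf O S i) →* FreeGroup G :=
  Monoid.CoprodI.lift (fun i => (Kf O S i).subtype)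

theorem ph_sec {G : Type*} [Group G] (O S : Set G) (g : G) (hg : g ∈ O ∪ S) :
    ph O S (sec O S g) = FreeGroup.of g := by
  classical
  unfold sec ph
  by_cases hgO : g ∈ O
  · rw [dif_pos hgO, Monoid.CoprodI.lift_of]
    rfl
  · have hgS : g ∈ S := hg.resolve_left hgO
    rw [dif_neg hgO, dif_pos hgS, Monoid.CoprodI.lift_of]
    rfl

theorem freeOn_of_inj {G : Type*} [Group G] (O S : Set G)
    (hinj : Function.Injective (Monoid.CoprodI.lift (ff O S))) : FreeOn (O ∪ S) := by
  have h1 : ∀ x ∈ Subgroup.closure (FreeGroup.of '' (O ∪ S)),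
      ph O S (FreeGroup.lift (sec O S) x) = x := by
    intro x hx
    induction hx using Subgroup.closure_induction with
    | mem x hx =>
      obtain ⟨g, hg, rfl⟩ := hx
      rw [FreeGroup.lift_apply_of, ph_sec O S g hg]
    | one => rw [map_one, map_one]
    | mul x y _ _ ihx ihy => rw [map_mul, map_mul, ihx, ihy]
    | inv x _ ih => rw [map_inv, map_inv, ih]
  have h0 : (Monoid.CoprodI.lift (ff O S)) =
      (FreeGroup.lift id : FreeGroup G →* G).comp (ph O S) := by
    apply Monoid.CoprodI.ext_hom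
    intro i
    ext x
    rw [MonoidHom.comp_apply, MonoidHom.comp_apply, MonoidHom.comp_apply,
      Monoid.CoprodI.lift_of, ph, Monoid.CoprodI.lift_of]
    rfl
  intro x hx hx1
  have h3 : Monoid.CoprodI.lift (ff O S) (FreeGroup.lift (sec O S) x) = 1 := by
    rw [h0, MonoidHom.comp_apply, h1 x hx]
    exact hx1
  have h4 : FreeGroup.lift (sec O S) x = 1 := hinj (by rw [h3, map_one])
  rw [← h1 x hx, h4, map_one]

/-- The ping-pong sets. -/
def Zs {G : Type*} [Group G] {X : Type*} (O S : Set G) (Ω : G → Set X) (R : Set X) :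
    Option S → Set X
  | none => R ∪ {p | ∃ g ∈ Subgroup.closure O, g ≠ 1 ∧ ∃ s ∈ S, p ∈ Ω (g * s * g⁻¹)}
  | some s => Ω s.1

theorem ff_some {G : Type*} [Group G] (O S : Set G) (s : S) (h : Kf O S (some s)) (h1 : h ≠ 1) :
    ∃ n : ℤ, n ≠ 0 ∧ ff O S (some s) h = s.1 ^ n := by
  obtain ⟨h, hh⟩ := h
  obtain ⟨n, hn⟩ := Subgroup.mem_closure_singleton.mp hh
  refine ⟨n, ?_, ?_⟩
  · intro hn0
    rw [hn0, zpow_zero] at hn
    exact h1 (Subtype.ext hn.symm)
  · rw [ff_apply]
    show FreeGroup.lift id h = s.1 ^ n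
    rw [← hn, map_zpow, FreeGroup.lift_apply_of]
    rfl

theorem Kf_infinite {G : Type*} [Group G] (O S : Set G) (s : S) : Infinite (Kf O S (some s)) := by
  refine Infinite.of_injective (fun n : ℤ => (⟨FreeGroup.of s.1 ^ n,
    Subgroup.mem_closure_singleton.mpr ⟨n, rfl⟩⟩ : Kf O S (some s))) ?_
  intro n k hnk
  have h1 : FreeGroup.of s.1 ^ n = FreeGroup.of s.1 ^ k := congrArg Subtype.val hnk
  have h2 := congrArg (FreeGroup.lift (fun _ : G => Multiplicative.ofAdd (1 : ℤ))) h1
  rw [map_zpow, map_zpow, FreeGroup.lift_apply_of, ← ofAdd_zsmul, ← ofAdd_zsmul] at h2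
  simpa using h2

theorem ping {G : Type*} [Group G] {X : Type*} [MulAction G X] (O A S : Set G) (hO : FreeOn O)
    (hSA : S ⊆ A)
    (hA : ∀ g ∈ Subgroup.closure O, ∀ u ∈ A, g * u * g⁻¹ ∈ A)
    (I4 : ∀ g ∈ Subgroup.closure O, g ≠ 1 → ∀ u ∈ A, g * u * g⁻¹ ≠ u)
    (hrep : ∀ s ∈ S, ∀ t ∈ S, ∀ g ∈ Subgroup.closure O, g * s * g⁻¹ = t → s = t)
    (Ω : G → Set X) (R : Set X) (hR : R.Nonempty)
    (P1 : ∀ u ∈ A, ∀ n : ℤ, n ≠ 0 → ∀ p : X, p ∉ Ω u → u ^ n • p ∈ Ω u)
    (P2 : ∀ u ∈ A, ∀ v ∈ A, u ≠ v → ∀ p : X, p ∈ Ω u → p ∉ Ω v)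
    (P3 : ∀ g ∈ Subgroup.closure O, ∀ u ∈ A, ∀ p : X, p ∈ Ω u → g • p ∈ Ω (g * u * g⁻¹))
    (P4 : ∀ u ∈ A, ∀ p ∈ R, p ∉ Ω u) :
    FreeOn (O ∪ S) := by
  rcases S.eq_empty_or_nonempty with rfl | ⟨s0, hs0⟩
  · rw [Set.union_empty]
    exact hO
  -- the first set is disjoint from the shadows
  have hnone : ∀ s ∈ S, ∀ p ∈ Zs O S Ω R none, p ∉ Ω s := by
    rintro s hs p (hp | ⟨g, hg, g1, t, ht, hp⟩)
    · exact P4 s (hSA hs) p hp
    · refine P2 _ (hA g hg t (hSA ht)) s (hSA hs) ?_ p hp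
      intro he
      have h1 : t = s := hrep t ht s hs g hg he
      subst h1
      exact I4 g hg g1 t (hSA ht) he
  have hnt : Nontrivial (Option S) := ⟨none, some ⟨s0, hs0⟩, by simp⟩
  apply freeOn_of_inj
  refine Monoid.CoprodI.lift_injective_of_ping_pong (ff O S)
    (Or.inr ⟨some ⟨s0, hs0⟩, ?_⟩) (Zs O S Ω R) ?_ ?_ ?_
  · have hinf := Kf_infinite O S ⟨s0, hs0⟩
    exact (Cardinal.natCast_le_aleph0 (n := 3)).trans (Cardinal.aleph0_le_mk _)
  · rintro (_ | s)
    · exact hR.mono Set.subset_union_left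
    · obtain ⟨p, hp⟩ := hR
      exact ⟨s.1 ^ (1 : ℤ) • p, P1 s.1 (hSA s.2) 1 one_ne_zero p (P4 s.1 (hSA s.2) p hp)⟩
  · rintro (_ | s) (_ | t) hst
    · exact absurd rfl hst
    · refine Set.disjoint_left.mpr ?_
      intro p hp
      exact hnone t.1 t.2 p hp
    · refine Set.disjoint_right.mpr ?_
      intro p hp
      exact hnone s.1 s.2 p hp
    · refine Set.disjoint_left.mpr ?_
      intro p hp
      exact P2 s.1 (hSA s.2) t.1 (hSA t.2) (fun he => hst (by rw [Subtype.ext he])) p hp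
  · rintro (_ | s) (_ | t) hst h h1
    · exact absurd rfl hst
    · rintro _ ⟨p, hp, rfl⟩
      refine Or.inr ⟨ff O S none h, lift_mem O h.1 h.2, ?_, t.1, t.2, ?_⟩
      · intro h2
        exact h1 (Subtype.ext (hO h.1 h.2 h2))
      · exact P3 _ (lift_mem O h.1 h.2) t.1 (hSA t.2) p hp
    · rintro _ ⟨p, hp, rfl⟩
      obtain ⟨n, hn, h2⟩ := ff_some O S s h h1
      show ff O S (some s) h • p ∈ Ω s.1
      rw [h2]
      exact P1 s.1 (hSA s.2) n hn p (hnone s.1 s.2 p hp)
    · rintro _ ⟨p, hp, rfl⟩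
      obtain ⟨n, hn, h2⟩ := ff_some O S s h h1
      show ff O S (some s) h • p ∈ Ω s.1
      rw [h2]
      exact P1 s.1 (hSA s.2) n hn p
        (P2 t.1 (hSA t.2) s.1 (hSA s.2) (fun he => hst (by rw [Subtype.ext he])) p hp)

end Pool.Agent.H88.WPD
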