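import Pool.Agent.H83.WPD.Bound
import Pool.Agent.H83.WPD.Ping

/-!
The windmill theorem.
-/

namespace Pool.Agent.H83.WPD

open Pool.Agent.H88.WPD

variable {G : Type*} [Group G] {X : Type*} [MulAction G X]

/-- Conjugates of the elements of `O` by the group they generate. -/
def Wd (O : Set G) : Set G := {w | ∃ g ∈ Subgroup.closure O, ∃ o ∈ O, w = g * o * g⁻¹}

theorem Wd_conj (O : Set G) (g : G) (hg : g ∈ Subgroup.closure O) (w : G) (hw : w ∈ Wd O) :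
    g * w * g⁻¹ ∈ Wd O := by
  obtain ⟨h, hh, o, ho, rfl⟩ := hw
  exact ⟨g * h, Subgroup.mul_mem _ hg hh, o, ho, by group⟩

theorem Wd_mono {O P : Set G} (h : O ⊆ P) : Wd O ⊆ Wd P := by
  rintro w ⟨g, hg, o, ho, rfl⟩
  exact ⟨g, Subgroup.closure_mono h hg, o, h ho, rfl⟩

theorem Wd_sub (O : Set G) (w : G) (hw : w ∈ Wd O) : w ∈ Subgroup.closure O := by
  obtain ⟨g, hg, o, ho, rfl⟩ := hw
  exact Subgroup.mul_mem _ (Subgroup.mul_mem _ hg (Subgroup.subset_closure ho))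
    (Subgroup.inv_mem _ hg)

/-- A stage of the windmill. -/
structure Stage (T : Set G) (D : G → X → X → ℝ) (θ : ℝ) (O : Set G) (R : Set X) : Prop where
  sub : O ⊆ T
  ne : R.Nonempty
  inv : ∀ g ∈ Subgroup.closure O, ∀ p ∈ R, g • p ∈ R
  le : ∀ u ∈ T, u ∉ Wd O → ∀ p ∈ R, ∀ q ∈ R, D u p q ≤ 6 * θ
  free : FreeOn O

/-- The neighbourhood. -/
def Rp (Adj : X → X → Prop) (R : Set X) : Set X :=
  {q | q ∈ R ∨ ∃ p ∈ R, Adj p q}

/-- The large rotations. -/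
def Lg (T : Set G) (D : G → X → X → ℝ) (θ : ℝ) (O : Set G) (R : Set X) : Set G :=
  {u | u ∈ T ∧ u ∉ Wd O ∧ ∃ p ∈ R, ∃ q ∈ R, 2 * θ < D u p q}

section

variable {T : Set G} {D : G → X → X → ℝ} {θ L : ℝ} {O : Set G} {R : Set X}
variable {Adj : X → X → Prop}

theorem Rp_inv (hAdj : ∀ (g : G) (p q : X), Adj p q → Adj (g • p) (g • q))
    (s : Stage T D θ O R) (g : G) (hg : g ∈ Subgroup.closure O) (p : X) (hp : p ∈ Rp Adj R) :
    g • p ∈ Rp Adj R := by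
  rcases hp with hp | ⟨a, ha, hap⟩
  · exact Or.inl (s.inv g hg p hp)
  · exact Or.inr ⟨g • a, s.inv g hg a ha, hAdj g a p hap⟩

theorem Rp_le (c : Ctx T D θ L) (DAdj : ∀ t ∈ T, ∀ p q : X, Adj p q → D t p q ≤ θ)
    (s : Stage T D θ O R) (u : G) (hu : u ∈ T) (huW : u ∉ Wd O) (p : X) (hp : p ∈ Rp Adj R)
    (q : X) (hq : q ∈ Rp Adj R) : D u p q ≤ 8 * θ := by
  have near : ∀ x ∈ Rp Adj R, ∃ y ∈ R, D u x y ≤ θ := by
    rintro x (hx | ⟨a, ha, hax⟩)
    · exact ⟨x, hx, by rw [c.D0]; exact c.hθ⟩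
    · exact ⟨a, ha, by rw [c.Dsymm]; exact DAdj u hu a x hax⟩
  obtain ⟨a, ha, h1⟩ := near p hp
  obtain ⟨b, hb, h2⟩ := near q hq
  have h3 := s.le u hu huW a ha b hb
  have h4 := c.Dtri u p a q
  have h5 := c.Dtri u a b q
  rw [c.Dsymm u b q] at h5
  linarith

theorem Wd_conj' (O : Set G) (g : G) (hg : g ∈ Subgroup.closure O) (w : G) (hw : w ∉ Wd O) :
    g * w * g⁻¹ ∉ Wd O := by
  intro h
  apply hw
  have := Wd_conj O g⁻¹ (Subgroup.inv_mem _ hg) _ h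
  convert this using 1
  group

/-- One step. -/
theorem step (c : Ctx T D θ L) (hAdj : ∀ (g : G) (p q : X), Adj p q → Adj (g • p) (g • q))
    (DAdj : ∀ t ∈ T, ∀ p q : X, Adj p q → D t p q ≤ θ)
    (Cen : ∀ t ∈ T, ∀ g : G, g * t * g⁻¹ = t → ∃ j l : ℤ, 0 < j ∧ g ^ j = t ^ l)
    (s : Stage T D θ O R) :
    ∃ O' R', Stage T D θ O' R' ∧ O ⊆ O' ∧ Rp Adj R ⊆ R' := by
  classical
  set Q : Set X := Rp Adj R with hQ
  set A : Set G := Lg T D θ O Q with hA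
  have hQinv : ∀ g ∈ Subgroup.closure O, ∀ p ∈ Q, g • p ∈ Q := fun g hg p hp =>
    Rp_inv hAdj s g hg p hp
  have hQne : Q.Nonempty := s.ne.mono (fun x hx => Or.inl hx)
  have b : Big T D θ Q A :=
    ⟨fun u hu => hu.1, hQne, fun u hu p hp q hq => Rp_le c DAdj s u hu.1 hu.2.1 p hp q hq,
      fun u hu => hu.2.2⟩
  have hAinv : ∀ g ∈ Subgroup.closure O, ∀ u ∈ A, g * u * g⁻¹ ∈ A := by
    rintro g hg u ⟨huT, huW, p, hp, q, hq, h⟩
    refine ⟨c.hT u huT g, Wd_conj' O g hg u huW, g • p, hQinv g hg p hp, g • q, hQinv g hg q hq, ?_⟩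
    rw [c.Deq u huT]
    exact h
  have I4 : ∀ g ∈ Subgroup.closure O, g ≠ 1 → ∀ u ∈ A, g * u * g⁻¹ ≠ u := by
    intro g hg g1 u hu he
    obtain ⟨j, l, hj, hjl⟩ := Cen u hu.1 g he
    have h1 : g ^ j ≠ 1 := torsion_free O s.free g hg g1 j (by omega)
    have hl : l ≠ 0 := by
      rintro rfl
      rw [zpow_zero] at hjl
      exact h1 hjl
    obtain ⟨p, hp⟩ := s.ne
    have h2 := c.Drot u hu.1 l hl p
    rw [← hjl] at h2
    have h3 := s.le u hu.1 hu.2.1 (g ^ j • p) (s.inv _ (Subgroup.zpow_mem _ hg j) p hp) p hp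
    have := c.hθ
    have := c.hL
    linarith
  -- representatives
  let r : G → G → Prop := fun u v => ∃ g ∈ Subgroup.closure O, g * u * g⁻¹ = v
  have hr : Equivalence r :=
    ⟨fun u => ⟨1, Subgroup.one_mem _, by group⟩,
      fun {u v} ⟨g, hg, h⟩ => ⟨g⁻¹, Subgroup.inv_mem _ hg, by rw [← h]; group⟩,
      fun {u v w} ⟨g, hg, h⟩ ⟨k, hk, h'⟩ => ⟨k * g, Subgroup.mul_mem _ hk hg, by
        rw [← h', ← h]; group⟩⟩
  let st : Setoid G := ⟨r, hr⟩
  let rep : G → G := fun u => (Quotient.mk st u).out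
  have hrep1 : ∀ u, r (rep u) u := fun u => Quotient.mk_out (s := st) u
  have hrep2 : ∀ u v, r u v → rep u = rep v := fun u v h => by
    show (Quotient.mk st u).out = (Quotient.mk st v).out
    rw [Quotient.sound (s := st) h]
  set S : Set G := rep '' A with hS
  have hSA : S ⊆ A := by
    rintro _ ⟨u, hu, rfl⟩
    obtain ⟨g, hg, h⟩ := hr.symm (hrep1 u)
    rw [← h]
    exact hAinv g hg u hu
  have hSrep : ∀ a ∈ S, ∀ t ∈ S, ∀ g ∈ Subgroup.closure O, g * a * g⁻¹ = t → a = t := by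
    rintro _ ⟨u, hu, rfl⟩ _ ⟨v, hv, rfl⟩ g hg h
    apply hrep2
    have h1 : r (rep u) (rep v) := ⟨g, hg, h⟩
    exact hr.trans (hr.symm (hrep1 u)) (hr.trans h1 (hrep1 v))
  have hAS : ∀ u ∈ A, ∃ g ∈ Subgroup.closure O, ∃ a ∈ S, u = g * a * g⁻¹ := by
    intro u hu
    obtain ⟨g, hg, h⟩ := hrep1 u
    exact ⟨g, hg, rep u, ⟨u, hu, rfl⟩, h.symm⟩
  set O' : Set G := O ∪ S with hO'
  have hOO' : Subgroup.closure O ≤ Subgroup.closure O' :=
    Subgroup.closure_mono Set.subset_union_left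
  have hAW : A ⊆ Wd O' := by
    intro u hu
    obtain ⟨g, hg, a, ha, h⟩ := hAS u hu
    exact ⟨g, hOO' hg, a, Or.inr ha, h⟩
  have hAG : ∀ a ∈ A, a ∈ Subgroup.closure O' := fun a ha => Wd_sub O' a (hAW ha)
  have hfree : FreeOn O' := by
    refine ping O A S s.free hSA hAinv I4 hSrep (Om D θ Q) Q hQne
      (fun u hu n hn p hp => P1 c b u hu n hn p hp)
      (fun u hu v hv huv p hp => P2 c b u hu v hv huv p hp) ?_
      (fun u hu p hp => P4 c u p hp)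
    intro g hg u hu p hp q hq
    have h1 := hp (g⁻¹ • q) (hQinv _ (Subgroup.inv_mem _ hg) q hq)
    have h2 := c.Deq u hu.1 g p (g⁻¹ • q)
    rw [smul_inv_smul] at h2
    rw [h2]
    exact h1
  have hout : ∀ u ∈ T, u ∉ Wd O' → ∀ p ∈ Q, ∀ q ∈ Q, D u p q ≤ 2 * θ := by
    intro u hu huW p hp q hq
    by_contra hcon
    push Not at hcon
    exact huW (hAW ⟨hu, fun h => huW (Wd_mono Set.subset_union_left h), p, hp, q, hq, hcon⟩)
  have hcl : Subgroup.closure O' ≤ Subgroup.closure (O ∪ A) :=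
    Subgroup.closure_mono (Set.union_subset_union_right O hSA)
  refine ⟨O', {x | ∃ g ∈ Subgroup.closure O', ∃ p ∈ Q, x = g • p}, ⟨?_, ?_, ?_, ?_, hfree⟩,
    Set.subset_union_left, ?_⟩
  · rintro x (hx | hx)
    · exact s.sub hx
    · exact (hSA hx).1
  · obtain ⟨p, hp⟩ := hQne
    exact ⟨p, 1, Subgroup.one_mem _, p, hp, by simp⟩
  · rintro g hg _ ⟨h, hh, p, hp, rfl⟩
    exact ⟨g * h, Subgroup.mul_mem _ hg hh, p, hp, by rw [mul_smul]⟩
  · rintro u hu huW _ ⟨g, hg, p, hp, rfl⟩ _ ⟨h, hh, q, hq, rfl⟩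
    have hu' : g⁻¹ * u * g ∈ T := by
      have := c.hT u hu g⁻¹
      simpa using this
    have huW' : g⁻¹ * u * g ∉ Wd O' := by
      have := Wd_conj' O' g⁻¹ (Subgroup.inv_mem _ hg) u huW
      simpa using this
    have h1 := c.Deq _ hu' g p (g⁻¹ • h • q)
    rw [smul_inv_smul] at h1
    have h2 : g * (g⁻¹ * u * g) * g⁻¹ = u := by group
    rw [h2] at h1
    rw [h1]
    obtain ⟨m, v, n, k, hred, hk, hrepr⟩ := rep_of_mem O A hAinv (g⁻¹ * h)
      (hcl (Subgroup.mul_mem _ (Subgroup.inv_mem _ hg) hh))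
    have h3 : g⁻¹ • h • q = Gf v n m • k • q := by
      rw [← mul_smul, hrepr, mul_smul]
    rw [h3]
    exact bound c b (Subgroup.closure O') (Wd O') hAG hAW (fun g hg w hw => Wd_conj O' g hg w hw)
      hout _ hu' huW' v n m hred p (k • q) hp (hQinv k hk q hq)
  · intro x hx
    exact ⟨1, Subgroup.one_mem _, x, hx, by simp⟩

end

end Pool.Agent.H83.WPD

namespace Pool.Agent.H88.WPD

open Pool.Agent.H83.WPD

/-- The windmill theorem: a conjugation invariant family of rotations about pairwise nearly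
disjoint axes generates a free group. -/
theorem windmill {G : Type*} [Group G] {X : Type*} [MulAction G X] [Nonempty X]
    (Adj : X → X → Prop) (hAdj : ∀ (g : G) (p q : X), Adj p q → Adj (g • p) (g • q))
    (hconn : ∀ p q : X, Relation.ReflTransGen Adj p q)
    (T : Set G) (hT : ∀ t ∈ T, ∀ g : G, g * t * g⁻¹ ∈ T)
    (D : G → X → X → ℝ) (D0 : ∀ t p, D t p p = 0) (Dsymm : ∀ t p q, D t p q = D t q p)
    (Dtri : ∀ t p q r, D t p r ≤ D t p q + D t q r)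
    (Deq : ∀ t ∈ T, ∀ (g : G) (p q : X), D (g * t * g⁻¹) (g • p) (g • q) = D t p q)
    (θ L : ℝ) (hθ : 0 ≤ θ) (hL : 100 * (θ + 1) ≤ L)
    (DAdj : ∀ t ∈ T, ∀ p q : X, Adj p q → D t p q ≤ θ)
    (Drot : ∀ t ∈ T, ∀ n : ℤ, n ≠ 0 → ∀ p : X, L ≤ D t (t ^ n • p) p)
    (Beh : ∀ s ∈ T, ∀ t ∈ T, s ≠ t → ∃ x y : X, ∀ p : X, D s p x ≤ θ ∨ D t p y ≤ θ)
    (Cen : ∀ t ∈ T, ∀ g : G, g * t * g⁻¹ = t → ∃ j l : ℤ, 0 < j ∧ g ^ j = t ^ l) :
    IsFreeGroup (Subgroup.closure T) := by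
  classical
  have c : Ctx T D θ L := ⟨hT, D0, Dsymm, Dtri, Deq, hθ, hL, Drot, Beh⟩
  obtain ⟨p0⟩ := ‹Nonempty X›
  have s0 : Stage T D θ (∅ : Set G) ({p0} : Set X) := by
    refine ⟨by simp, ⟨p0, rfl⟩, ?_, ?_, ?_⟩
    · intro g hg p hp
      rw [Subgroup.closure_empty, Subgroup.mem_bot] at hg
      rw [hg, one_smul]
      exact hp
    · intro u _ _ p hp q hq
      rw [Set.mem_singleton_iff.mp hp, Set.mem_singleton_iff.mp hq, D0]
      linarith
    · intro x hx _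
      rw [Set.image_empty, Subgroup.closure_empty, Subgroup.mem_bot] at hx
      exact hx
  -- iterate
  let Z : Type _ := {z : Set G × Set X // Stage T D θ z.1 z.2}
  have hstep : ∀ z : Z, ∃ z' : Z, z.1.1 ⊆ z'.1.1 ∧ Rp Adj z.1.2 ⊆ z'.1.2 := by
    rintro ⟨⟨O, R⟩, s⟩
    obtain ⟨O', R', s', h1, h2⟩ := step c hAdj DAdj Cen s
    exact ⟨⟨⟨O', R'⟩, s'⟩, h1, h2⟩
  choose f hf1 hf2 using hstep
  let a : ℕ → Z := fun k => Nat.rec ⟨⟨∅, {p0}⟩, s0⟩ (fun _ z => f z) k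
  have ha : ∀ k, a (k + 1) = f (a k) := fun k => rfl
  have hO1 : ∀ k, (a k).1.1 ⊆ (a (k + 1)).1.1 := fun k => hf1 (a k)
  have hR1 : ∀ k, Rp Adj (a k).1.2 ⊆ (a (k + 1)).1.2 := fun k => hf2 (a k)
  have hO : Monotone (fun k => (a k).1.1) := monotone_nat_of_le_succ hO1
  have hR : Monotone (fun k => (a k).1.2) :=
    monotone_nat_of_le_succ (fun k x hx => hR1 k (Or.inl hx))
  have hcov : ∀ q : X, ∃ k, q ∈ (a k).1.2 := by
    intro q
    have h := hconn p0 q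
    induction h with
    | refl => exact ⟨0, rfl⟩
    | tail _ hbc ih =>
      obtain ⟨k, hk⟩ := ih
      exact ⟨k + 1, hR1 k (Or.inr ⟨_, hk, hbc⟩)⟩
  have hTsub : ∀ u ∈ T, ∃ k, u ∈ Subgroup.closure (a k).1.1 := by
    intro u hu
    by_contra hcon
    push Not at hcon
    obtain ⟨k1, hk1⟩ := hcov p0
    obtain ⟨k2, hk2⟩ := hcov (u • p0)
    have e1 := hR (le_max_left k1 k2) hk1
    have e2 := hR (le_max_right k1 k2) hk2
    have h1 := (a (max k1 k2)).2.le u hu (fun h => hcon _ (Wd_sub _ u h)) _ e2 _ e1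
    have h2 := Drot u hu 1 one_ne_zero p0
    rw [zpow_one] at h2
    linarith
  have hclo : Subgroup.closure T = Subgroup.closure (⋃ k, (a k).1.1) := by
    apply le_antisymm
    · rw [Subgroup.closure_le]
      intro u hu
      obtain ⟨k, hk⟩ := hTsub u hu
      exact Subgroup.closure_mono (Set.subset_iUnion _ k) hk
    · apply Subgroup.closure_mono
      intro x hx
      obtain ⟨k, hk⟩ := Set.mem_iUnion.mp hx
      exact (a k).2.sub hk
  have hfree : FreeOn (⋃ k, (a k).1.1) := by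
    intro x hx h1
    rw [Set.image_iUnion, Subgroup.closure_iUnion] at hx
    have hdir : Directed (· ≤ ·) (fun k => Subgroup.closure (FreeGroup.of '' (a k).1.1)) := by
      apply Monotone.directed_le
      intro i j hij
      exact Subgroup.closure_mono (Set.image_mono (hO hij))
    obtain ⟨k, hk⟩ := (Subgroup.mem_iSup_of_directed hdir).mp hx
    exact (a k).2.free x hk h1
  rw [hclo]
  exact free_closure _ hfree

end Pool.Agent.H88.WPD
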