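import Pool.Agent.H83.WPD.Step

/-!
The diameter bound for the enlarged region of one windmill step.
-/

namespace Pool.Agent.H83.WPD

/-- The standing hypotheses on the projection distances. -/
structure Ctx {G : Type*} [Group G] {X : Type*} [MulAction G X] (T : Set G)
    (D : G → X → X → ℝ) (θ L : ℝ) : Prop where
  hT : ∀ t ∈ T, ∀ g : G, g * t * g⁻¹ ∈ T
  D0 : ∀ t p, D t p p = 0
  Dsymm : ∀ t p q, D t p q = D t q p
  Dtri : ∀ t p q r, D t p r ≤ D t p q + D t q r
  Deq : ∀ t ∈ T, ∀ (g : G) (p q : X), D (g * t * g⁻¹) (g • p) (g • q) = D t p q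
  hθ : 0 ≤ θ
  hL : 100 * (θ + 1) ≤ L
  Drot : ∀ t ∈ T, ∀ n : ℤ, n ≠ 0 → ∀ p : X, L ≤ D t (t ^ n • p) p
  Beh : ∀ s ∈ T, ∀ t ∈ T, s ≠ t → ∃ x y : X, ∀ p : X, D s p x ≤ θ ∨ D t p y ≤ θ

variable {G : Type*} [Group G] {X : Type*} [MulAction G X]

/-- The shadow of `u`: points far from the region. -/
def Om (D : G → X → X → ℝ) (θ : ℝ) (R : Set X) (u : G) : Set X :=
  {p | ∀ q ∈ R, 2 * θ < D u p q}

/-- What we know about the enlarged region and the large new rotations. -/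
structure Big (T : Set G) (D : G → X → X → ℝ) (θ : ℝ) (R : Set X) (A : Set G) : Prop where
  sub : A ⊆ T
  ne : R.Nonempty
  le : ∀ u ∈ A, ∀ p ∈ R, ∀ q ∈ R, D u p q ≤ 8 * θ
  big : ∀ u ∈ A, ∃ p ∈ R, ∃ q ∈ R, 2 * θ < D u p q

section

variable {T : Set G} {D : G → X → X → ℝ} {θ L : ℝ} {R : Set X} {A : Set G}

omit [Group G] [MulAction G X] in
theorem not_mem_Om {u : G} {p : X} (h : p ∉ Om D θ R u) : ∃ q ∈ R, D u p q ≤ 2 * θ := by
  by_contra hcon
  push Not at hcon
  exact h hcon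

theorem P4 (c : Ctx T D θ L) (u : G) (p : X) (hp : p ∈ R) : p ∉ Om D θ R u := by
  intro h
  have h1 := h p hp
  rw [c.D0] at h1
  have := c.hθ
  linarith

theorem P1 (c : Ctx T D θ L) (b : Big T D θ R A) (u : G) (hu : u ∈ A) (n : ℤ) (hn : n ≠ 0)
    (p : X) (hp : p ∉ Om D θ R u) : u ^ n • p ∈ Om D θ R u := by
  intro q hq
  obtain ⟨q0, hq0, h0⟩ := not_mem_Om hp
  have h1 := c.Drot u (b.sub hu) n hn p
  have h2 := b.le u hu q0 hq0 q hq
  have h3 := c.Dtri u (u ^ n • p) q p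
  have h4 := c.Dtri u q q0 p
  rw [c.Dsymm u q q0, c.Dsymm u q0 p] at h4
  have := c.hθ
  have := c.hL
  linarith

theorem P2 (c : Ctx T D θ L) (b : Big T D θ R A) (u : G) (hu : u ∈ A) (v : G) (hv : v ∈ A)
    (huv : u ≠ v) (p : X) (hp : p ∈ Om D θ R u) : p ∉ Om D θ R v := by
  intro hp'
  obtain ⟨x, y, hxy⟩ := c.Beh u (b.sub hu) v (b.sub hv) huv
  -- a point of R far from x in D u, hence near y in D v
  obtain ⟨p1, hp1, h1⟩ : ∃ p1 ∈ R, θ < D u p1 x := by
    by_contra hcon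
    push Not at hcon
    obtain ⟨a, ha, b', hb', hab⟩ := b.big u hu
    have e1 := hcon a ha
    have e2 := hcon b' hb'
    have e3 := c.Dtri u a x b'
    rw [c.Dsymm u x b'] at e3
    linarith
  obtain ⟨p2, hp2, h2⟩ : ∃ p2 ∈ R, θ < D v p2 y := by
    by_contra hcon
    push Not at hcon
    obtain ⟨a, ha, b', hb', hab⟩ := b.big v hv
    have e1 := hcon a ha
    have e2 := hcon b' hb'
    have e3 := c.Dtri v a y b'
    rw [c.Dsymm v y b'] at e3
    linarith
  have h1' : D v p1 y ≤ θ := by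
    rcases hxy p1 with h | h
    · linarith
    · exact h
  have h2' : D u p2 x ≤ θ := by
    rcases hxy p2 with h | h
    · exact h
    · linarith
  have e1 := hp p2 hp2
  have e2 := c.Dtri u p x p2
  rw [c.Dsymm u x p2] at e2
  have e3 : D v p y ≤ θ := by
    rcases hxy p with h | h
    · linarith
    · exact h
  have e4 := hp' p1 hp1
  have e5 := c.Dtri v p y p1
  rw [c.Dsymm v y p1] at e5
  linarith

/-- Two points outside the shadow of `u`: a nontrivial power separates them. -/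
theorem sep (c : Ctx T D θ L) (b : Big T D θ R A) (u : G) (hu : u ∈ A) (n : ℤ) (hn : n ≠ 0)
    (p q : X) (hp : p ∉ Om D θ R u) (hq : q ∉ Om D θ R u) : 2 * θ < D u p (u ^ n • q) := by
  obtain ⟨p0, hp0, h0⟩ := not_mem_Om hp
  obtain ⟨q0, hq0, h1⟩ := not_mem_Om hq
  have h2 := c.Drot u (b.sub hu) n hn q
  have h3 := b.le u hu p0 hp0 q0 hq0
  have h4 := c.Dtri u (u ^ n • q) p q
  have h5 := c.Dtri u p p0 q
  have h6 := c.Dtri u p0 q0 q
  rw [c.Dsymm u (u ^ n • q) p] at h4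
  rw [c.Dsymm u q0 q] at h6
  have := c.hθ
  have := c.hL
  linarith

variable {v : ℕ → G} {n : ℕ → ℤ} {m : ℕ}

/-- Points of earlier pieces, seen from the piece `i`. -/
theorem before (c : Ctx T D θ L) (b : Big T D θ R A) (r : Red A v n m) (j : ℕ) (a : X)
    (ha : a ∈ R) : ∀ i, j ≤ i → i < m → (Gf v n i)⁻¹ • Gf v n j • a ∉ Om D θ R (v i) := by
  intro i hji
  induction i, hji using Nat.le_induction with
  | base =>
    intro _
    rw [inv_smul_smul]
    exact P4 c _ a ha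
  | succ i hi ih =>
    intro him
    have h1 := ih (by omega)
    have h2 := P1 c b (v i) (r.mem i (by omega)) (-n i) (by have := r.ne i (by omega); omega) _ h1
    have h3 : (Gf v n (i + 1))⁻¹ • Gf v n j • a =
        v i ^ (-n i) • (Gf v n i)⁻¹ • Gf v n j • a := by
      simp only [Gf, mul_inv_rev, zpow_neg, mul_smul]
    rw [h3]
    exact P2 c b (v i) (r.mem i (by omega)) (v (i + 1)) (r.mem (i + 1) him)
      (r.chain i him) _ h2

/-- Points of later pieces, seen from the piece `i + 1`. -/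
theorem after (c : Ctx T D θ L) (b : Big T D θ R A) (r : Red A v n m) (k : ℕ) (a : X)
    (ha : a ∈ R) (hkm : k ≤ m) : ∀ d i, i + 1 + d = k →
      (Gf v n (i + 1))⁻¹ • Gf v n k • a ∉ Om D θ R (v i) := by
  intro d
  induction d with
  | zero =>
    intro i hi
    obtain rfl : i + 1 = k := by omega
    rw [inv_smul_smul]
    exact P4 c _ a ha
  | succ d ih =>
    intro i hi
    have h1 := ih (i + 1) (by omega)
    have h2 := P1 c b (v (i + 1)) (r.mem (i + 1) (by omega)) (n (i + 1))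
      (r.ne (i + 1) (by omega)) _ h1
    have h3 : (Gf v n (i + 1))⁻¹ • Gf v n k • a =
        v (i + 1) ^ n (i + 1) • (Gf v n (i + 1 + 1))⁻¹ • Gf v n k • a := by
      have : Gf v n (i + 1 + 1) = Gf v n (i + 1) * v (i + 1) ^ n (i + 1) := rfl
      rw [this, mul_inv_rev, mul_smul, smul_inv_smul]
    rw [h3]
    exact P2 c b (v (i + 1)) (r.mem (i + 1) (by omega)) (v i) (r.mem i (by omega))
      (fun he => r.chain i (by omega) he.symm) _ h2

/-- The rotation about the axis between piece `i` and piece `i + 1`. -/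
def Hi (v : ℕ → G) (n : ℕ → ℤ) (i : ℕ) : G := Gf v n i * v i * (Gf v n i)⁻¹

theorem Hi_sep (c : Ctx T D θ L) (b : Big T D θ R A) (r : Red A v n m) (i j k : ℕ)
    (hi : i < m) (hj : j ≤ i) (hk : i + 1 ≤ k) (hkm : k ≤ m) (p q : X) (hp : p ∈ R) (hq : q ∈ R) :
    2 * θ < D (Hi v n i) (Gf v n j • p) (Gf v n k • q) := by
  have h1 := before c b r j p hp i hj hi
  have h2 := after c b r k q hq hkm (k - (i + 1)) i (by omega)
  have h3 := sep c b (v i) (r.mem i hi) (n i) (r.ne i hi) _ _ h1 h2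
  have h4 := c.Deq (v i) (b.sub (r.mem i hi)) (Gf v n i) ((Gf v n i)⁻¹ • Gf v n j • p)
    ((Gf v n i)⁻¹ • Gf v n k • q)
  rw [smul_inv_smul, smul_inv_smul] at h4
  have h5 : v i ^ n i • (Gf v n (i + 1))⁻¹ • Gf v n k • q = (Gf v n i)⁻¹ • Gf v n k • q := by
    have : Gf v n (i + 1) = Gf v n i * v i ^ n i := rfl
    rw [this, mul_inv_rev, mul_smul, smul_inv_smul]
  rw [h5] at h3
  unfold Hi
  rw [h4]
  exact h3

theorem Hi_diam (c : Ctx T D θ L) (b : Big T D θ R A) (r : Red A v n m) (i k : ℕ)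
    (hi : i < m) (hk : k = i ∨ k = i + 1) :
    ∃ p ∈ R, ∃ q ∈ R, 2 * θ < D (Hi v n i) (Gf v n k • p) (Gf v n k • q) := by
  obtain ⟨p, hp, q, hq, hpq⟩ := b.big (v i) (r.mem i hi)
  refine ⟨p, hp, q, hq, ?_⟩
  have h1 : Hi v n i = Gf v n k * v i * (Gf v n k)⁻¹ := by
    rcases hk with rfl | rfl
    · rfl
    · have : Gf v n (i + 1) = Gf v n i * v i ^ n i := rfl
      rw [this]
      unfold Hi
      group
  rw [h1, c.Deq (v i) (b.sub (r.mem i hi))]
  exact hpq

end

/-- The main estimate. -/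
theorem bound {T : Set G} {D : G → X → X → ℝ} {θ L : ℝ} {R : Set X} {A : Set G}
    (c : Ctx T D θ L) (b : Big T D θ R A) (G' : Subgroup G) (W : Set G) (hAG : ∀ a ∈ A, a ∈ G')
    (hAW : A ⊆ W) (hW : ∀ g ∈ G', ∀ w ∈ W, g * w * g⁻¹ ∈ W)
    (hout : ∀ u ∈ T, u ∉ W → ∀ p ∈ R, ∀ q ∈ R, D u p q ≤ 2 * θ)
    (u : G) (hu : u ∈ T) (huW : u ∉ W) (v : ℕ → G) (n : ℕ → ℤ) (m : ℕ) (r : Red A v n m)
    (p q : X) (hp : p ∈ R) (hq : q ∈ R) : D u p (Gf v n m • q) ≤ 6 * θ := by
  have hθ := c.hθ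
  -- prefix products lie in G'
  have hG : ∀ i ≤ m, Gf v n i ∈ G' := by
    intro i
    induction i with
    | zero => intro _; exact G'.one_mem
    | succ i ih =>
      intro him
      exact G'.mul_mem (ih (by omega)) (G'.zpow_mem (hAG _ (r.mem i (by omega))) _)
  -- (a)
  have ha : ∀ i ≤ m, ∀ x ∈ R, ∀ y ∈ R, D u (Gf v n i • x) (Gf v n i • y) ≤ 2 * θ := by
    intro i hi x hx y hy
    set g := Gf v n i with hg
    have hu' : g⁻¹ * u * g ∉ W := by
      intro hw
      apply huW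
      have := hW g (hG i hi) _ hw
      convert this using 1
      group
    have huT : g⁻¹ * u * g ∈ T := by
      have := c.hT u hu g⁻¹
      simpa using this
    have h1 := hout _ huT hu' x hx y hy
    have h2 := c.Deq _ huT g x y
    have h3 : g * (g⁻¹ * u * g) * g⁻¹ = u := by group
    rw [h3] at h2
    rw [h2]
    exact h1
  -- choose the behind points
  have hHW : ∀ i < m, Hi v n i ∈ W := fun i hi => hW _ (hG i (by omega)) _ (hAW (r.mem i hi))
  have hHT : ∀ i < m, Hi v n i ∈ T := fun i hi => c.hT _ (b.sub (r.mem i hi)) _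
  have hbeh : ∀ i, i < m → ∃ x y : X, ∀ p : X, D u p x ≤ θ ∨ D (Hi v n i) p y ≤ θ := by
    intro i hi
    exact c.Beh u hu _ (hHT i hi) (fun he => huW (he ▸ hHW i hi))
  have : Nonempty X := ⟨p⟩
  choose! x y hxy using hbeh
  -- (c)
  have hc : ∀ i < m, (∀ j ≤ i, ∀ a ∈ R, D u (Gf v n j • a) (x i) ≤ θ) ∨
      (∀ k, i + 1 ≤ k → k ≤ m → ∀ a ∈ R, D u (Gf v n k • a) (x i) ≤ θ) := by
    intro i hi
    by_contra hcon
    push Not at hcon
    obtain ⟨⟨j, hj, a, haR, h1⟩, ⟨k, hk, hkm, a', ha', h2⟩⟩ := hcon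
    have h3 := Hi_sep c b r i j k hi hj hk hkm a a' haR ha'
    have h4 : D (Hi v n i) (Gf v n j • a) (y i) ≤ θ := by
      rcases hxy i hi (Gf v n j • a) with h | h
      · linarith
      · exact h
    have h5 : D (Hi v n i) (Gf v n k • a') (y i) ≤ θ := by
      rcases hxy i hi (Gf v n k • a') with h | h
      · linarith
      · exact h
    have h6 := c.Dtri (Hi v n i) (Gf v n j • a) (y i) (Gf v n k • a')
    rw [c.Dsymm _ (y i)] at h6
    linarith
  -- (d)
  have hd : ∀ i < m, ∀ k, (k = i ∨ k = i + 1) → ∃ a ∈ R, D u (Gf v n k • a) (x i) ≤ θ := by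
    intro i hi k hk
    by_contra hcon
    push Not at hcon
    obtain ⟨a, haR, a', ha', h1⟩ := Hi_diam c b r i k hi hk
    have h4 : D (Hi v n i) (Gf v n k • a) (y i) ≤ θ := by
      rcases hxy i hi (Gf v n k • a) with h | h
      · have := hcon a haR; linarith
      · exact h
    have h5 : D (Hi v n i) (Gf v n k • a') (y i) ≤ θ := by
      rcases hxy i hi (Gf v n k • a') with h | h
      · have := hcon a' ha'; linarith
      · exact h
    have h6 := c.Dtri (Hi v n i) (Gf v n k • a) (y i) (Gf v n k • a')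
    rw [c.Dsymm _ (y i)] at h6
    linarith
  -- (e): by descending along the pieces
  have key : ∀ k ≤ m, ((∃ i, i + 1 = k ∧ ∀ j ≤ i, ∀ a ∈ R, D u (Gf v n j • a) (x i) ≤ θ) ∨
      (k = 0)) → (k = m ∨ (k < m ∧ ∀ l, k + 1 ≤ l → l ≤ m → ∀ a ∈ R,
        D u (Gf v n l • a) (x k) ≤ θ)) → D u p (Gf v n m • q) ≤ 6 * θ := by
    intro k hk h1 h2
    have p0 : Gf v n 0 • p = p := by simp [Gf]
    -- a point of piece k at distance at most 2θ from p
    obtain ⟨s, hs, hps⟩ : ∃ s ∈ R, D u p (Gf v n k • s) ≤ 2 * θ := by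
      rcases h1 with ⟨i, rfl, hF⟩ | rfl
      · obtain ⟨s, hs, h3⟩ := hd i (by omega) (i + 1) (Or.inr rfl)
        refine ⟨s, hs, ?_⟩
        have h4 := hF 0 (by omega) p hp
        rw [p0] at h4
        have h5 := c.Dtri u p (x i) (Gf v n (i + 1) • s)
        rw [c.Dsymm u (x i)] at h5
        linarith
      · refine ⟨p, hp, ?_⟩
        rw [p0, c.D0]
        linarith
    rcases h2 with rfl | ⟨hkm, hN⟩
    · have h6 := ha k le_rfl s hs q hq
      have h7 := c.Dtri u p (Gf v n k • s) (Gf v n k • q)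
      linarith
    · obtain ⟨s', hs', h3⟩ := hd k hkm k (Or.inl rfl)
      have h4 := hN m (by omega) le_rfl q hq
      have h5 := ha k hk s hs s' hs'
      have h6 := c.Dtri u p (Gf v n k • s) (Gf v n k • s')
      have h7 := c.Dtri u (Gf v n k • s') (x k) (Gf v n m • q)
      rw [c.Dsymm u (x k)] at h7
      have h8 := c.Dtri u p (Gf v n k • s') (Gf v n m • q)
      linarith
  -- pick the last index with F
  have main : ∀ k ≤ m, ((∃ i, i + 1 = k ∧ ∀ j ≤ i, ∀ a ∈ R, D u (Gf v n j • a) (x i) ≤ θ) ∨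
      (k = 0)) → D u p (Gf v n m • q) ≤ 6 * θ := by
    intro k hk
    obtain ⟨d, hd'⟩ : ∃ d, k + d = m := ⟨m - k, by omega⟩
    induction d generalizing k with
    | zero =>
      intro h1
      exact key k hk h1 (Or.inl (by omega))
    | succ d ih =>
      intro h1
      rcases hc k (by omega) with hF | hN
      · exact ih (k + 1) (by omega) (by omega) (Or.inl ⟨k, rfl, hF⟩)
      · exact key k hk h1 (Or.inr ⟨by omega, hN⟩)
  exact main 0 (by omega) (Or.inr rfl)

end Pool.Agent.H83.WPD
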