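import Mathlib

/-!
The geometric half of one step of the windmill: reduced products of powers of the new rotations and
the diameter bound for the enlarged region.
-/

namespace Pool.Agent.H83.WPD

variable {G : Type*} [Group G] {X : Type*} [MulAction G X]

/-- Products of powers. -/
def Gf (v : ℕ → G) (n : ℕ → ℤ) : ℕ → G
  | 0 => 1
  | (i + 1) => Gf v n i * v i ^ n i

/-- Put one more entry in front. -/
def cns {α : Type*} (a : α) (v : ℕ → α) : ℕ → α
  | 0 => a
  | (i + 1) => v i

theorem Gf_cns (a : G) (k : ℤ) (v : ℕ → G) (n : ℕ → ℤ) (i : ℕ) :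
    Gf (cns a v) (cns k n) (i + 1) = a ^ k * Gf v n i := by
  induction i with
  | zero => simp [Gf, cns]
  | succ i ih =>
    have h : Gf (cns a v) (cns k n) (i + 1 + 1) =
      Gf (cns a v) (cns k n) (i + 1) * v i ^ n i := rfl
    rw [h, ih, mul_assoc]
    rfl

theorem Gf_congr (v w : ℕ → G) (n k : ℕ → ℤ) (m : ℕ) (h : ∀ i < m, v i = w i ∧ n i = k i) :
    Gf v n m = Gf w k m := by
  induction m with
  | zero => rfl
  | succ m ih =>
    have h1 := ih (fun i hi => h i (by omega))
    have h2 := h m (by omega)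
    simp only [Gf, h1, h2.1, h2.2]

theorem Gf_shift (v : ℕ → G) (n : ℕ → ℤ) (i : ℕ) :
    Gf v n (i + 1) = v 0 ^ n 0 * Gf (fun j => v (j + 1)) (fun j => n (j + 1)) i := by
  rw [← Gf_cns]
  apply Gf_congr
  intro j _
  cases j <;> simp [cns]

theorem Gf_conj (h : G) (v : ℕ → G) (n : ℕ → ℤ) (i : ℕ) :
    Gf (fun j => h * v j * h⁻¹) n i = h * Gf v n i * h⁻¹ := by
  induction i with
  | zero => simp [Gf]
  | succ i ih =>
    simp only [Gf, ih]
    rw [conj_zpow]
    group

/-- Reduced data. -/
structure Red (A : Set G) (v : ℕ → G) (n : ℕ → ℤ) (m : ℕ) : Prop where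
  mem : ∀ i < m, v i ∈ A
  ne : ∀ i < m, n i ≠ 0
  chain : ∀ i, i + 1 < m → v i ≠ v (i + 1)

/-- Elements with a reduced expression. -/
def Rep (A : Set G) (H : Subgroup G) (g : G) : Prop :=
  ∃ (m : ℕ) (v : ℕ → G) (n : ℕ → ℤ) (h : G), Red A v n m ∧ h ∈ H ∧ g = Gf v n m * h

theorem rep_left (A : Set G) (H : Subgroup G) (hA : ∀ g ∈ H, ∀ u ∈ A, g * u * g⁻¹ ∈ A)
    (h : G) (hh : h ∈ H) (g : G) (hg : Rep A H g) : Rep A H (h * g) := by
  obtain ⟨m, v, n, k, hr, hk, rfl⟩ := hg
  refine ⟨m, fun j => h * v j * h⁻¹, n, h * k, ⟨?_, hr.ne, ?_⟩, H.mul_mem hh hk, ?_⟩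
  · intro i hi
    exact hA h hh _ (hr.mem i hi)
  · intro i hi he
    apply hr.chain i hi
    have : h * v i * h⁻¹ = h * v (i + 1) * h⁻¹ := he
    simpa using this
  · rw [Gf_conj]
    group

theorem rep_pow (A : Set G) (H : Subgroup G) (a : G) (ha : a ∈ A) (k : ℤ) (g : G)
    (hg : Rep A H g) : Rep A H (a ^ k * g) := by
  by_cases hk : k = 0
  · subst hk
    simpa using hg
  obtain ⟨m, v, n, h, hr, hh, rfl⟩ := hg
  rcases m with _ | m
  · refine ⟨1, cns a v, cns k n, h, ⟨?_, ?_, ?_⟩, hh, ?_⟩
    · intro i hi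
      obtain rfl : i = 0 := by omega
      exact ha
    · intro i hi
      obtain rfl : i = 0 := by omega
      exact hk
    · intro i hi
      omega
    · have : Gf (cns a v) (cns k n) 1 = a ^ k * Gf v n 0 := Gf_cns a k v n 0
      rw [this, mul_assoc]
  · by_cases hv : v 0 = a
    · have hsh : Red A (fun j => v (j + 1)) (fun j => n (j + 1)) m :=
        ⟨fun i hi => hr.mem (i + 1) (by omega), fun i hi => hr.ne (i + 1) (by omega),
          fun i hi => hr.chain (i + 1) (by omega)⟩
      by_cases hz : k + n 0 = 0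
      · refine ⟨m, fun j => v (j + 1), fun j => n (j + 1), h, hsh, hh, ?_⟩
        rw [Gf_shift, hv, ← mul_assoc, ← mul_assoc, ← zpow_add, hz, zpow_zero, one_mul]
      · refine ⟨m + 1, cns a (fun j => v (j + 1)), cns (k + n 0) (fun j => n (j + 1)), h,
          ⟨?_, ?_, ?_⟩, hh, ?_⟩
        · intro i hi
          rcases i with _ | i
          · exact ha
          · exact hr.mem (i + 1) (by omega)
        · intro i hi
          rcases i with _ | i
          · exact hz
          · exact hr.ne (i + 1) (by omega)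
        · intro i hi
          rcases i with _ | i
          · have := hr.chain 0 (by omega)
            rw [hv] at this
            exact this
          · exact hr.chain (i + 1) (by omega)
        · rw [Gf_cns, Gf_shift, hv, ← mul_assoc, ← mul_assoc, ← zpow_add]
    · refine ⟨m + 1 + 1, cns a v, cns k n, h, ⟨?_, ?_, ?_⟩, hh, ?_⟩
      · intro i hi
        rcases i with _ | i
        · exact ha
        · exact hr.mem i (by omega)
      · intro i hi
        rcases i with _ | i
        · exact hk
        · exact hr.ne i (by omega)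
      · intro i hi
        rcases i with _ | i
        · exact fun he => hv he.symm
        · exact hr.chain i (by omega)
      · rw [Gf_cns, mul_assoc]

theorem rep_of_mem (O A : Set G)
    (hA : ∀ g ∈ Subgroup.closure O, ∀ u ∈ A, g * u * g⁻¹ ∈ A)
    (g : G) (hg : g ∈ Subgroup.closure (O ∪ A)) : Rep A (Subgroup.closure O) g := by
  induction hg using Subgroup.closure_induction_left with
  | one => exact ⟨0, fun _ => 1, fun _ => 0, 1, ⟨by simp, by simp, by simp⟩, Subgroup.one_mem _,
      by simp [Gf]⟩
  | mul_left x hx y hy ih =>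
    rcases hx with hx | hx
    · exact rep_left A _ hA x (Subgroup.subset_closure hx) y ih
    · have := rep_pow A (Subgroup.closure O) x hx 1 y ih
      simpa using this
  | inv_mul_cancel x hx y hy ih =>
    rcases hx with hx | hx
    · exact rep_left A _ hA x⁻¹ (Subgroup.inv_mem _ (Subgroup.subset_closure hx)) y ih
    · have := rep_pow A (Subgroup.closure O) x hx (-1) y ih
      simpa using this

end Pool.Agent.H83.WPD
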